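import Mathlib
import Pool.Agent.Lib.MP_2ae949_nt.Basic

set_option autoImplicit false

namespace Pool.Agent.Results.MP_2ae949_nt.OmegaOneOverX

open Filter Topology Finset Pool.Agent.Lib.MP_2ae949_nt

/-- For every MO function `f` (multiplicative, with convergent sum `0`, all local sums convergent
and nonzero; the value `f 0` plays no role), `limsup x |S_f(x)| ≥ 1/2`; in particular
`S_f(x) = Ω(1/x)`. -/
theorem result (f : ℕ → ℂ) (h1 : f 1 = 1)
    (hmul : ∀ m n : ℕ, 0 < m → 0 < n → Nat.Coprime m n → f (m * n) = f m * f n)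
    (hsum : Tendsto (fun N : ℕ => ∑ n ∈ Finset.Icc 1 N, f n) atTop (𝓝 0))
    (hloc : ∀ p : ℕ, p.Prime → ∃ L : ℂ, L ≠ 0 ∧
      Tendsto (fun K : ℕ => ∑ k ∈ Finset.range K, f (p ^ k)) atTop (𝓝 L)) :
    ∀ c : ℝ, c < 1 / 2 →
      ∃ᶠ x : ℝ in atTop, c < x * ‖∑ n ∈ Finset.Icc 1 ⌊x⌋₊, f n‖ := by
  intro c₀ hc₀
  by_contra hcon
  rw [Filter.not_frequently] at hcon
  obtain ⟨c, hc0, hc1, hcc⟩ : ∃ c : ℝ, 0 < c ∧ c < 1 / 2 ∧ c₀ ≤ c :=
    ⟨max c₀ (1 / 4), lt_max_of_lt_right (by norm_num), max_lt hc₀ (by norm_num), le_max_left _ _⟩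
  have hnat : ∀ᶠ n : ℕ in atTop, (n : ℝ) * ‖∑ k ∈ Finset.Icc 1 n, f k‖ ≤ c := by
    filter_upwards [tendsto_natCast_atTop_atTop.eventually hcon] with n hn
    rw [Nat.floor_natCast, not_lt] at hn
    exact hn.trans hcc
  obtain ⟨N₀, hN₀⟩ := eventually_atTop.mp hnat
  -- the modified function
  set g : ℕ → ℂ := fun n => if n = 0 then 0 else f n with hg
  have hgf : ∀ n : ℕ, 0 < n → g n = f n := fun n hn => by simp [hg, hn.ne']
  have hSg : ∀ n : ℕ, ∑ k ∈ Finset.Icc 1 n, g k = ∑ k ∈ Finset.Icc 1 n, f k := fun n =>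
    Finset.sum_congr rfl (fun k hk => hgf k (by have := (Finset.mem_Icc.mp hk).1; omega))
  have hg0 : g 0 = 0 := by simp [hg]
  have hg1 : g 1 = 1 := by rw [hgf 1 one_pos, h1]
  have hgmul : ∀ {m n : ℕ}, Nat.Coprime m n → g (m * n) = g m * g n := by
    intro m n hmn
    rcases Nat.eq_zero_or_pos m with rfl | hm
    · simp [hg0]
    rcases Nat.eq_zero_or_pos n with rfl | hn
    · simp [hg0]
    rw [hgf _ (Nat.mul_pos hm hn), hgf _ hm, hgf _ hn, hmul m n hm hn hmn]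
  -- uniform bound for the sums
  obtain ⟨C, hC0, hC⟩ : ∃ C : ℝ, 0 ≤ C ∧ ∀ n : ℕ, (n : ℝ) * ‖∑ k ∈ Finset.Icc 1 n, g k‖ ≤ C := by
    refine ⟨c + ∑ n ∈ Finset.range N₀, (n : ℝ) * ‖∑ k ∈ Finset.Icc 1 n, g k‖, ?_, fun n => ?_⟩
    · have : 0 ≤ ∑ n ∈ Finset.range N₀, (n : ℝ) * ‖∑ k ∈ Finset.Icc 1 n, g k‖ :=
        Finset.sum_nonneg (fun _ _ => by positivity)
      linarith
    · have h0 : 0 ≤ ∑ n ∈ Finset.range N₀, (n : ℝ) * ‖∑ k ∈ Finset.Icc 1 n, g k‖ :=
        Finset.sum_nonneg (fun _ _ => by positivity)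
      rcases lt_or_ge n N₀ with h | h
      · have := Finset.single_le_sum
          (f := fun n : ℕ => (n : ℝ) * ‖∑ k ∈ Finset.Icc 1 n, g k‖)
          (fun _ _ => by positivity) (Finset.mem_range.mpr h)
        linarith
      · have := hN₀ n h
        rw [← hSg] at this
        linarith
  have hS : ∀ n : ℕ, 1 ≤ n → ‖∑ k ∈ Finset.Icc 1 n, g k‖ ≤ C / n := by
    intro n hn
    have hn0 : (0 : ℝ) < n := by exact_mod_cast hn
    rw [le_div_iff₀ hn0, mul_comm]
    exact hC n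
  have hgD : ∀ n : ℕ, ‖g n‖ ≤ (3 * C + 1) / n := by
    intro n
    rcases n with _ | _ | n
    · simp [hg0]
    · simp only [zero_add, hg1, norm_one, Nat.cast_one, div_one]
      linarith
    · have h := norm_le_of_sums g (n + 1) (by omega)
      have ha := hS (n + 1 + 1) (by omega)
      have hb := hS (n + 1) (by omega)
      have hn0 : (0 : ℝ) ≤ n := by positivity
      have : C / ((n + 1 + 1 : ℕ) : ℝ) + C / ((n + 1 : ℕ) : ℝ) ≤
          (3 * C + 1) / ((n + 1 + 1 : ℕ) : ℝ) := by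
        push_cast
        rw [div_add_div _ _ (by positivity) (by positivity),
          div_le_div_iff₀ (by positivity) (by positivity)]
        have : 0 ≤ C * n := by positivity
        have : 0 ≤ C * n * n := by positivity
        nlinarith
      linarith
  set ε : ℝ := c + 1 / 2 with hε
  set θ : ℝ := (ε + 1) / 2 with hθ
  have hε1 : ε < 1 := by linarith
  have hev1 : ∀ᶠ n : ℕ in atTop, ‖g n‖ ≤ ε / n := by
    have ht : Tendsto (fun n : ℕ => c / (n : ℝ)) atTop (𝓝 0) :=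
      tendsto_const_div_atTop_nhds_zero_nat c
    have hev : ∀ᶠ n : ℕ in atTop, c / (n : ℝ) < 1 / 2 - c :=
      ht.eventually (gt_mem_nhds (by linarith))
    obtain ⟨N₁, hN₁⟩ := eventually_atTop.mp hev
    filter_upwards [eventually_ge_atTop (N₀ + N₁ + 2)] with n hn
    obtain ⟨m, rfl⟩ : ∃ m, n = m + 1 := ⟨n - 1, by omega⟩
    have hm0 : (0 : ℝ) < m := by exact_mod_cast (show 0 < m by omega)
    have h := norm_le_of_sums g m (by omega)
    have ha := hN₀ (m + 1) (by omega)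
    have hb := hN₀ m (by omega)
    have hc := hN₁ m (by omega)
    rw [← hSg] at ha hb
    rw [le_div_iff₀ (by positivity)]
    rw [div_lt_iff₀ hm0] at hc
    push_cast at ha ⊢
    set A := ‖∑ k ∈ Finset.Icc 1 (m + 1), g k‖
    set B := ‖∑ k ∈ Finset.Icc 1 m, g k‖
    have hB0 : 0 ≤ B := norm_nonneg _
    have hB : B ≤ 1 / 2 - c := by
      by_contra hB
      push Not at hB
      nlinarith
    have : ‖g (m + 1)‖ * (m + 1) ≤ (A + B) * (m + 1) :=
      mul_le_mul_of_nonneg_right h (by positivity)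
    nlinarith
  have hev2 : ∀ᶠ p : ℕ in atTop, ε ≤ θ * (1 - 1 / p) := by
    have ht : Tendsto (fun p : ℕ => θ * (1 - 1 / (p : ℝ))) atTop (𝓝 (θ * (1 - 0))) :=
      (tendsto_const_nhds.sub (tendsto_const_div_atTop_nhds_zero_nat 1)).const_mul θ
    exact (ht.eventually (lt_mem_nhds (show ε < θ * (1 - 0) by linarith))).mono (fun _ h => h.le)
  obtain ⟨P, hP⟩ := eventually_atTop.mp (hev1.and hev2)
  refine core g C (3 * C + 1) ε θ hg0 hg1 hgmul hS hgD (by linarith) (by linarith) (by linarith) P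
    (fun n hn => (hP n hn).1) (fun n hn => (hP n hn).2) (fun p hp => ?_)
  obtain ⟨L, hL0, hL⟩ := hloc p hp
  refine ⟨L, hL0, hL.congr (fun K => Finset.sum_congr rfl (fun k _ => ?_))⟩
  rw [hgf _ (pow_pos hp.pos k)]

end Pool.Agent.Results.MP_2ae949_nt.OmegaOneOverX
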